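import Mathlib
import Pool.Agent.MP_e7ec4f_an.C0Main

set_option autoImplicit false

namespace Pool.Agent.Results.MP_e7ec4f_an.CZero

open Pool.Agent.E7Iso Pool.Agent.E7C0

/-- The space `c_0` with its sup norm has a total nearly unconditional basis that is not
truncation quasi-greedy; it has subsets of every size with a lower `ℓ_1` estimate and subsets of
every size with an upper `c_0` estimate. -/
theorem result (𝕂 : Type) [RCLike 𝕂] :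
    ∃ (x : ℕ → ZeroAtInftyContinuousMap ℕ 𝕂) (xs : ℕ → ZeroAtInftyContinuousMap ℕ 𝕂 →ₗ[𝕂] 𝕂),
      IsBasis (fun f => ‖f‖) x xs ∧ (∀ f, (∀ n, xs n f = 0) → f = 0) ∧
      IsNU (fun f => ‖f‖) x xs ∧ ¬ IsTQG (fun f => ‖f‖) x xs ∧
      (∀ m : ℕ, ∃ A : Finset ℕ, A.card = m ∧ ∀ b : ℕ → 𝕂,
        1 / 256 * ∑ n ∈ A, ‖b n‖ ≤ ‖∑ n ∈ A, b n • x n‖) ∧
      (∀ m : ℕ, ∃ A : Finset ℕ, A.card = m ∧ ∀ b : ℕ → 𝕂, (∀ n, ‖b n‖ ≤ 1) →
        ‖∑ n ∈ A, b n • x n‖ ≤ 2) :=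
  ⟨xv, xf, isBasis, total, isNU, not_isTQG, ell_one, c_zero⟩

end Pool.Agent.Results.MP_e7ec4f_an.CZero
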