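import Mathlib
import Pool.Agent.MP_e7ec4f_an.dq.Main

set_option autoImplicit false

namespace Pool.Agent.Results.MP_e7ec4f_an.DualQG

open Pool.Agent.E7Iso Pool.Agent.E7C0 Pool.Agent.E7DQ

/-- A Banach space with a quasi-greedy Schauder basis whose dual basis is a nearly unconditional
Schauder basis of the dual space that is not truncation quasi-greedy; the truncation estimate
fails by a factor of order `log m` on greedy sets of at most `m` points. -/
theorem result (𝕂 : Type) [RCLike 𝕂] :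
    ∃ (Y : Type) (_ : NormedAddCommGroup Y) (_ : NormedSpace 𝕂 Y) (_ : CompleteSpace Y)
      (y : ℕ → Y) (ys : ℕ → StrongDual 𝕂 Y),
      IsBasis norm y (co ys) ∧ IsSchauder norm y (co ys) ∧ IsQG norm y (co ys) ∧
      IsBasis norm ys (ev 𝕂 y) ∧ IsSchauder norm ys (ev 𝕂 y) ∧ IsNU norm ys (ev 𝕂 y) ∧
      ¬ IsTQG norm ys (ev 𝕂 y) ∧
      ∀ m : ℕ, 1 ≤ m → Fails norm ys (ev 𝕂 y) m (Real.log m / 768) := by
  obtain ⟨Y, i1, i2, i3, y, ys, H⟩ := exists_space 𝕂
  exact ⟨Y, i1, i2, i3, y, ys, H.basis, H.schauder, ⟨4, H.qg⟩, H.dbasis, H.shrink, H.isNU,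
    H.notTQG, H.rate⟩

end Pool.Agent.Results.MP_e7ec4f_an.DualQG
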