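import Mathlib
import Pool.Agent.MP_e7ec4f_an.IsoPos

set_option autoImplicit false

namespace Pool.Agent.Results.MP_e7ec4f_an.Isometric

open Pool.Agent.E7Iso

/-- For `0 < p ≤ 1` and `L ≥ 1` every `L`-QGLC basis of every `p`-Banach space is truncation
quasi-greedy iff this holds for Schauder bases of `ℓ_p` under equivalent `p`-norms iff
`p = 1` and `L = 1`. -/
theorem result (𝕂 : Type) [RCLike 𝕂] (p L : ℝ) (hp : 0 < p) (hp1 : p ≤ 1) (hL : 1 ≤ L) :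
    List.TFAE
      [∀ (X : Type) [AddCommGroup X] [Module 𝕂 X] (q : X → ℝ) (x : ℕ → X) (xs : ℕ → X →ₗ[𝕂] 𝕂),
          IsPNorm 𝕂 p q → IsCompl q → IsBasis q x xs → IsQGLC L q x xs → IsTQG q x xs,
        ∀ (q : lp (fun _ : ℕ => 𝕂) (ENNReal.ofReal p) → ℝ)
          (x : ℕ → lp (fun _ : ℕ => 𝕂) (ENNReal.ofReal p))
          (xs : ℕ → lp (fun _ : ℕ => 𝕂) (ENNReal.ofReal p) →ₗ[𝕂] 𝕂),
          IsPNorm 𝕂 p q → (∃ c₁ c₂ : ℝ, 0 < c₁ ∧ ∀ f, c₁ * ‖f‖ ≤ q f ∧ q f ≤ c₂ * ‖f‖) →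
          IsBasis q x xs → IsSchauder q x xs → IsQGLC L q x xs → IsTQG q x xs,
        p = 1 ∧ L = 1] :=
  dichotomy 𝕂 p L hp hp1 hL

end Pool.Agent.Results.MP_e7ec4f_an.Isometric
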