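import Mathlib
import Pool.Agent.MP_e7ec4f_an.Main

/-!
The threshold functions of nearly unconditional bases that are not truncation quasi-greedy.
-/

namespace Pool.Agent.Results.MP_e7ec4f_an.ThresholdFunctions

open Pool.Agent.MP_e7ec4f_an Filter Topology

theorem result (𝕂 : Type) [RCLike 𝕂] (ψ : ℝ → ℝ) (h1 : ∀ a ∈ Set.Ioc (0 : ℝ) 1, 1 ≤ ψ a)
    (h2 : AntitoneOn ψ (Set.Ioc 0 1)) : List.TFAE
    [∃ (X : Type) (_ : AddCommGroup X) (_ : Module 𝕂 X) (q : X → ℝ) (x : ℕ → X)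
        (xs : ℕ → X →ₗ[𝕂] 𝕂), IsBasis q x xs ∧ ¬ IsTQG q x xs ∧ HasThreshold q x xs ψ,
      ∃ (H : Type) (_ : NormedAddCommGroup H) (_ : InnerProductSpace 𝕂 H) (_ : CompleteSpace H)
        (x : ℕ → H) (xs : ℕ → H →ₗ[𝕂] 𝕂), IsBasis norm x xs ∧
        (∀ f, Tendsto (fun N => ∑ n ∈ Finset.range N, xs n f • x n) atTop (𝓝 f)) ∧
        ¬ IsTQG norm x xs ∧ HasThreshold norm x xs ψ,
      ¬ BddAbove (ψ '' Set.Ioc 0 1) ∧ ∃ C : ℝ, ∀ a ∈ Set.Ioc (0 : ℝ) 1, ∀ b ∈ Set.Ioc (0 : ℝ) 1,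
        ψ (a * b) ≤ C * ψ a * ψ b] := by
  tfae_have 1 → 3 := fun ⟨_, _, _, _, _, _, h, h3, h4⟩ => necessary h h1 h3 h4
  tfae_have 3 → 2 := fun ⟨h3, _, h4⟩ => (exists_par h1 h2 h3 h4).elim fun P => sufficient 𝕂 P h1
  tfae_have 2 → 1 := fun ⟨H, _, _, _, x, xs, h, _, h3, h4⟩ => ⟨H, _, _, _, x, xs, h, h3, h4⟩
  tfae_finish

end Pool.Agent.Results.MP_e7ec4f_an.ThresholdFunctions
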